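import Pool.Agent.Lib.MP_b1a3a4_al.MVS.HO.Iface
import Pool.Agent.Lib.MP_b1a3a4_al.MVS.H47.Base

/-!
# Project MVS, part II: module BASE2 (10.30)
-/

set_option linter.all false

namespace Pool.Agent.Lib.MP_b1a3a4_al.MVS.HO.H27

theorem base2 (hA : CaseA2Statement) : Base2Statement := by
  intro I _ _ L _ U S hset hS hFP χ hχ
  apply hA I L U S hset hFP χ hχ
  by_contra hcon
  push Not at hcon
  obtain ⟨s, -, hs⟩ := hχ ∅ (Finset.empty_subset U) (Nat.zero_le _)
  apply hs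
  exact MVS.H47.chr_zero_of_factors I L U S hS χ hcon U (le_refl U) s.1 s.2
    (fun j hj => hset.supp s.1 s.2 j hj)

end Pool.Agent.Lib.MP_b1a3a4_al.MVS.HO.H27
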