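import Pool.Agent.Lib.MP_b1a3a4_al.MVS.HO.Iface
import Pool.Agent.Lib.MP_b1a3a4_al.MVS.H27.CaseA

/-!
# Project MVS, part II: module CASEA2 (10.29)
-/

set_option linter.all false

namespace Pool.Agent.Lib.MP_b1a3a4_al.MVS.HO.H27

open MVS.H27

variable {I : Type} {L : I → Type} [∀ i, Group (L i)]

/-- `K_i(S)` satisfies the hypotheses of `P(n)` if `S` satisfies those of `P(n+1)` -/
lemma setup_erase [DecidableEq I] (hFI : FpfiStatement) (hRes : FpresStatement) (k : Type)
    [CommRing k] [Nontrivial k] (n : ℕ) {U : Finset I} {S : Subgroup (∀ i, L i)}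
    (hS : Setup k (n + 1) U S) {i : I} (hi : i ∈ U) :
    Setup k n (U.erase i) (S ⊓ kerJ L {i}) := by
  set K : Subgroup (∀ i, L i) := S ⊓ kerJ L {i} with hK
  have hKS : K ≤ S := inf_le_left
  have hKi : ∀ s ∈ K, s i = 1 := fun s hs => hs.2 i (Finset.mem_singleton_self i)
  have hKmem : ∀ s ∈ S, s i = 1 → s ∈ K := by
    intro s hs h1
    refine Subgroup.mem_inf.2 ⟨hs, ?_⟩
    intro a ha
    rw [Finset.mem_singleton] at ha
    subst ha
    exact h1
  have hprle : ∀ j, pr K j ≤ pr S j := fun j => Subgroup.map_mono hKS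
  have hUi : ∀ {a}, a ∈ U.erase i → a ∈ U ∧ a ≠ i := fun h =>
    ⟨Finset.mem_of_mem_erase h, Finset.ne_of_mem_erase h⟩
  refine ⟨?_, ?_, ?_, ?_⟩
  · intro s hs a ha
    by_cases h : a = i
    · subst h
      exact hKi s hs
    · refine hS.supp s (hKS hs) a ?_
      intro ha'
      exact ha (Finset.mem_erase.2 ⟨h, ha'⟩)
  · intro j hj
    obtain ⟨hjU, hji⟩ := hUi hj
    rcases Nat.eq_zero_or_pos n with h0 | hpos
    · subst h0
      exact fpn_zero k _
    · -- finite index
      have h2 : (S ⊔ kerJ L {i, j}).relIndex (piS U S) ≠ 0 := by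
        refine hS.a2 {i, j} ?_ (le_trans Finset.card_le_two (by omega))
        intro a ha
        rw [Finset.mem_insert, Finset.mem_singleton] at ha
        rcases ha with rfl | rfl
        · exact hi
        · exact hjU
      have h3 := Subgroup.relIndex_comap_ne_zero (MonoidHom.mulSingle L j) h2
      have h4 : pr S j ≤ (piS U S).comap (MonoidHom.mulSingle L j) :=
        fun y hy => mulSingle_mem_piS hjU hy
      have h5 : (S ⊔ kerJ L {i, j}).comap (MonoidHom.mulSingle L j) ≤ pr K j := by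
        intro y hy
        rw [Subgroup.mem_comap, mem_sup_kerJ] at hy
        obtain ⟨s, hs, h6⟩ := hy
        refine ⟨s, hKmem s hs ?_, ?_⟩
        · rw [h6 i (by simp)]
          simp [Pi.mulSingle_eq_of_ne (Ne.symm hji)]
        · show s j = y
          rw [h6 j (by simp)]
          simp
      have h7 : (pr K j).relIndex (pr S j) ≠ 0 := by
        refine ne_zero_of_dvd_ne_zero ?_ (Subgroup.relIndex_dvd_of_le_left _ h5)
        exact mt (Subgroup.relIndex_eq_zero_of_le_right h4) h3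
      have h8 : FPn k (pr S j) n := by
        obtain ⟨P, hP⟩ := (hRes _ _ _).1 (hS.a1 j hjU)
        exact (hRes _ _ _).2 ⟨P, fun q hq => hP q (by omega)⟩
      refine hFI k _ _ (Subgroup.inclusion (hprle j)) (Subgroup.inclusion_injective _) ?_ n h8
      rw [Subgroup.inclusion_range]
      exact ⟨h7⟩
  · intro J hJ hJc
    have hJU : insert i J ⊆ U := by
      intro a ha
      rcases Finset.mem_insert.1 ha with rfl | ha
      · exact hi
      · exact (hUi (hJ ha)).1
    have hiJ : i ∉ J := fun h => (hUi (hJ h)).2 rfl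
    have h2 := hS.a2 (insert i J) hJU (by rw [Finset.card_insert_of_notMem hiJ]; omega)
    have hpi : piS (U.erase i) K ≤ piS U S := by
      intro y hy
      refine ⟨fun a => hprle a (hy.1 a), fun a ha => hy.2 a ?_⟩
      intro ha'
      exact ha (hUi ha').1
    have h3 : (S ⊔ kerJ L (insert i J)).relIndex (piS (U.erase i) K) ≠ 0 :=
      mt (Subgroup.relIndex_eq_zero_of_le_right hpi) h2
    rw [← Subgroup.inf_relIndex_right] at h3
    refine ne_zero_of_dvd_ne_zero h3 (Subgroup.relIndex_dvd_of_le_left _ ?_)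
    intro y hy
    obtain ⟨s, hs, h4⟩ := mem_sup_kerJ.1 hy.1
    refine mem_sup_kerJ.2 ⟨s, hKmem s hs ?_, fun a ha => h4 a (Finset.mem_insert_of_mem ha)⟩
    rw [h4 i (Finset.mem_insert_self i J)]
    exact hy.2.2 i (by simp)
  · obtain ⟨c, hc⟩ := hS.a3
    refine ⟨c, fun j hj => ?_⟩
    obtain ⟨hjU, hji⟩ := hUi hj
    refine le_trans (lcs_mono (hprle j) c) (le_trans (hc j hjU) ?_)
    intro y hy
    refine hKmem _ hy ?_
    rw [MonoidHom.mulSingle_apply, Pi.mulSingle_eq_of_ne (Ne.symm hji)]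

theorem casea2 (hCasex : CasexStatement) (hSigp : SigpStatement) (hFI : FpfiStatement)
    (hRes : FpresStatement) : CaseA2Statement := by
  intro I _ _ L _ U S hS hFP χ hχ hx
  obtain ⟨i, hi, x, hxS, hxχ⟩ := hx
  have hSet := setup_erase hFI hRes ℤ 1 hS hi
  set K : Subgroup (∀ i, L i) := S ⊓ kerJ L {i} with hK
  have hKS : K ≤ S := inf_le_left
  have hKi : ∀ s ∈ K, s i = 1 := fun s hs => hs.2 i (Finset.mem_singleton_self i)
  have hKmem : ∀ s ∈ S, s i = 1 → s ∈ K := by
    intro s hs h1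
    refine Subgroup.mem_inf.2 ⟨hs, ?_⟩
    intro a ha
    rw [Finset.mem_singleton] at ha
    subst ha
    exact h1
  set ι : K →* S := Subgroup.inclusion hKS with hι
  have hcond : CondB 1 (U.erase i) K (χ.res ι) := by
    intro J hJ hJc
    have hJU : insert i J ⊆ U := by
      intro a ha
      rcases Finset.mem_insert.1 ha with rfl | ha
      · exact hi
      · exact Finset.mem_of_mem_erase (hJ ha)
    have hiJ : i ∉ J := fun h => Finset.ne_of_mem_erase (hJ h) rfl
    obtain ⟨s, hs, hsχ⟩ := hχ (insert i J) hJU (by rw [Finset.card_insert_of_notMem hiJ]; omega)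
    refine ⟨⟨s.1, hKmem s.1 s.2 (hs i (Finset.mem_insert_self i J))⟩, ?_, ?_⟩
    · intro a ha
      exact hs a (Finset.mem_insert_of_mem ha)
    · exact hsχ
  have hCC : CC (up (val (χ.res ι)) 0) := hSigp I L (U.erase i) K hSet (χ.res ι) hcond
  obtain ⟨κ, -, hκ⟩ := hcond ∅ (Finset.empty_subset _) (Nat.zero_le _)
  refine hCasex K S ι (Subgroup.inclusion_injective _) ?_ hFP χ ⟨_, hxS⟩ ?_ hxχ ⟨κ, hκ⟩ hCC
  · constructor
    rintro _ ⟨κ, rfl⟩ s
    refine ⟨⟨s.1 * κ.1 * s.1⁻¹, hKmem _ (S.mul_mem (S.mul_mem s.2 (hKS κ.2)) (S.inv_mem s.2)) ?_⟩,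
      rfl⟩
    rw [Pi.mul_apply, Pi.mul_apply, Pi.inv_apply, hKi κ.1 κ.2, mul_one, mul_inv_cancel]
  · intro κ
    apply Subtype.ext
    show Pi.mulSingle i x * (κ : ∀ i, L i) = (κ : ∀ i, L i) * Pi.mulSingle i x
    funext a
    by_cases ha : a = i
    · subst ha
      simp [hKi κ.1 κ.2]
    · simp [Pi.mulSingle_eq_of_ne ha]

end Pool.Agent.Lib.MP_b1a3a4_al.MVS.HO.H27
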