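import Pool.Agent.Lib.MP_b1a3a4_al.MVS.HO.Iface

/-!
# Project MVS, part II: module CASEX (10.27)
-/

set_option linter.all false

namespace Pool.Agent.Lib.MP_b1a3a4_al.MVS.HO.H27

theorem casex (hLemx : LemxStatement) (hP2h : P2hStatement) (hHalfc : HalfcStatement) :
    CasexStatement := by
  intro K G _ _ j hj hN hG χ a ha hχa hκ hCC
  obtain ⟨a', ha', hχa'⟩ : ∃ a', (∀ κ, a' * j κ = j κ * a') ∧ 0 < val χ a' := by
    rcases lt_or_gt_of_ne hχa with h | h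
    · refine ⟨a⁻¹, fun κ => ?_, by rw [val_inv]; linarith⟩
      rw [inv_mul_eq_iff_eq_mul, ← mul_assoc, ha κ, mul_inv_cancel_right]
    · exact ⟨a, ha, h⟩
  obtain ⟨κ', hκ'⟩ : ∃ κ, 0 < val χ (j κ) := by
    obtain ⟨κ, hκ⟩ := hκ
    rcases lt_or_gt_of_ne hκ with h | h
    · refine ⟨κ⁻¹, ?_⟩
      rw [map_inv, val_inv]
      linarith
    · exact ⟨κ, h⟩
  refine hHalfc G χ ⟨a', hχa'⟩ ?_
  intro B hB
  obtain ⟨E, hBE, hE, hP⟩ := hLemx K G j hj hN hG χ a' ha' hχa' ⟨κ', hκ'⟩ hCC B hB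
  obtain ⟨ε, D, hε, hD⟩ := hP2h G E hE χ 0 hP
  refine ⟨E, hBE, hE, D, ?_⟩
  have := hD 0 (by simpa using hε)
  simpa using this

end Pool.Agent.Lib.MP_b1a3a4_al.MVS.HO.H27
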