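import Pool.Agent.Lib.MP_b1a3a4_al.MVS.HO.Iface
import Pool.Agent.Lib.MP_b1a3a4_al.MVS.H27.PN

/-!
# Project MVS, part II: module Q2 (10.32)
-/

set_option linter.all false

namespace Pool.Agent.Lib.MP_b1a3a4_al.MVS.HO.H27

theorem q2 (hBase : Base2Statement) (hStep : Step2Statement) (hChain : ChainStatement)
    (hUp : SetupUpStatement) (hFG : FpfgStatement) : Q2Statement := by
  intro I _ _ L _ U S hS
  have hle : S ≤ piS U S := fun s hs => ⟨fun j => ⟨s, hs, rfl⟩, hS.supp s hs⟩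
  refine hChain I L U S hS.supp ?_ hS.a3
    (fun S' => FPres S' → ∀ χ : Chr S', CondB 2 U S' χ → Sig2 χ) ?_ ?_
  · intro j hj
    rw [← Group.fg_iff_subgroup_fg]
    exact hFG ℤ _ (MVS.H27.isFP_one _ 1 _ (hS.a1 j hj))
  · intro S' h1 h2 i hi t₀ ht₀ hx h3 hfp
    obtain ⟨hS', hpi, hpr⟩ := hUp ℤ 2 I L U S S' hS h1 h2
    obtain ⟨hfp', hconc⟩ := hStep I L U S' hS' hfp i hi t₀ (by rw [hpr i]; exact ht₀)
      (by rw [hpr i]; exact hx)
    exact hconc (h3 hfp')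
  · obtain ⟨hS', hpi, -⟩ := hUp ℤ 2 I L U S (piS U S) hS hle le_rfl
    exact hBase I L U (piS U S) hS' hpi.le

end Pool.Agent.Lib.MP_b1a3a4_al.MVS.HO.H27
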