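import Pool.Agent.Lib.MP_b1a3a4_al.MVS.HO.Iface

/-!
# Project MVS, part II: module SIGP (10.28)
-/

set_option linter.all false

namespace Pool.Agent.Lib.MP_b1a3a4_al.MVS.HO.H27

theorem sigp (hSig1 : Sig1Statement) (hPN : PNStatement) (hM : MonoidStatement)
    (hRes : FpresStatement) : SigpStatement := by
  intro I _ _ L _ U S hS χ hχ
  obtain ⟨hF, hB⟩ := hPN ℤ 1 I L U S hS
  obtain ⟨F, hFin⟩ := (hRes _ _ _).1 hF
  have hχ0 : χ ≠ 0 := by
    rintro rfl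
    obtain ⟨s, -, hs⟩ := hχ ∅ (Finset.empty_subset U) (Nat.zero_le _)
    exact hs rfl
  exact hSig1 ℤ S χ (hM ℤ S χ hχ0 1 F hFin (hB χ hχ F hFin))

end Pool.Agent.Lib.MP_b1a3a4_al.MVS.HO.H27
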