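import Pool.Agent.Lib.MP_b1a3a4_al.MVS.HO.Iface
import Pool.Agent.Lib.MP_b1a3a4_al.MVS.H27.PN
import Pool.Agent.Lib.MP_b1a3a4_al.MVS.H27.Top

/-!
# Project MVS, part II: module TOPHO (10.33)
-/

set_option linter.all false

namespace Pool.Agent.Lib.MP_b1a3a4_al.MVS.HO.H27

open MVS.H27

lemma isFP_pred (R : Type) [Ring R] (n : ℕ) : ∀ (A : Type) [AddCommGroup A] [Module R A],
    IsFP R (n + 1) A → IsFP R n A := by
  induction n with
  | zero => exact fun A _ _ h => isFP_finite R _ A h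
  | succ n ih =>
    intro A _ _ h
    obtain ⟨r, f, hf, hk⟩ := h
    exact ⟨r, f, hf, ih _ hk⟩

lemma isFP_mono (R : Type) [Ring R] {m n : ℕ} (hmn : m ≤ n) (A : Type) [AddCommGroup A]
    [Module R A] (h : IsFP R n A) : IsFP R m A := by
  induction n, hmn using Nat.le_induction with
  | base => exact h
  | succ n _ ih => exact ih (isFP_pred R n A h)

theorem topho (hQ2 : Q2Statement) (hFin : FinIndStatement) (hGrp : TopGrpStatement)
    (hTop : TopFpStatement) (hFI : FpfiStatement) : TopHoStatement := by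
  intro n hn I _ _ L _ S hnI hfp hFP hS χ hχ hc
  obtain ⟨S', hle, hconj, hrel, hfin, ha2, c, ha3⟩ := hGrp I L S n hn hnI hS
  have hF' : FPn ℤ S' n := by
    refine hFI ℤ _ _ (Subgroup.inclusion hle) (Subgroup.inclusion_injective _) ?_ n hFP
    rw [Subgroup.inclusion_range]
    exact ⟨hrel⟩
  have hF2 : FPn ℤ S' 2 := isFP_mono _ hn _ hF'
  have hset : Setup ℤ 2 Finset.univ S' :=
    ⟨fun s _ i hi => absurd (Finset.mem_univ i) hi,
      fun j _ => hTop ℤ 2 (by omega) I L S' hF2 ⟨c, ha3⟩ j,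
      fun J _ hJ => ha2 J (hJ.trans hn), ⟨c, fun j _ => ha3 j⟩⟩
  obtain ⟨Q, _, π, hQ, hses⟩ := ses_of_normal hle hconj hrel
  have hcond : CondB 2 Finset.univ S' (χ.res (Subgroup.inclusion hle)) := by
    intro J _ hJ
    obtain ⟨J', hJJ', hJ'⟩ := Finset.exists_superset_card_eq (hJ.trans hn) (by simpa using hnI)
    obtain ⟨s, hs, hsχ⟩ := charCond_ne hχ hc J' hJ'
    obtain ⟨m, hm, κ, hκ⟩ := pow_mem_of_ses hses s
    refine ⟨κ, ?_, ?_⟩
    · intro j hj
      have h1 : (κ : ∀ i, L i) = (s : ∀ i, L i) ^ m := congrArg Subtype.val hκ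
      rw [h1, Pi.pow_apply, hs j (hJJ' hj), one_pow]
    · rw [val_res, hκ, val_pow]
      have : (m : ℝ) ≠ 0 := by positivity
      exact mul_ne_zero this hsχ
  obtain ⟨h1, h2⟩ := hFin S' S Q (Subgroup.inclusion hle) π hses
  obtain ⟨κ, -, hκ⟩ := hcond ∅ (Finset.empty_subset _) (Nat.zero_le _)
  rw [val_res] at hκ
  refine (h2 χ ?_).1 (hQ2 I L Finset.univ S' hset (h1.2 hfp) _ hcond)
  rcases lt_or_gt_of_ne hκ with h | h
  · refine ⟨κ⁻¹, ?_⟩
    rw [map_inv, val_inv]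
    linarith
  · exact ⟨κ, h⟩

end Pool.Agent.Lib.MP_b1a3a4_al.MVS.HO.H27
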